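import Pool.Agent.Helper31.MHS.Goals
import Pool.Agent.Helper11.MH.MCM
import Pool.Agent.Helper56.MH.OKM

/-!
# Packet MHS-CHK (MP_c578c8_lc): the check of a part of a computation
-/

namespace Pool.Agent.Helper5.MHS

open Pool.Agent.Helper65.LinSpace Pool.Agent.Helper78.Mpc Pool.Agent.Helper28.Ram Finset
open Pool.Agent.Helper20.MH
open Pool.Agent.Helper31.MHS

variable {D K : ℕ}

theorem e01_ne {x y : ℕ} : eq01 x y ≠ 0 ↔ x = y := by
  unfold eq01
  split_ifs with h
  · simp [h]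
  · simp [h]

theorem l01_ne {x y : ℕ} : lt01 x y ≠ 0 ↔ x < y := by
  unfold lt01
  split_ifs with h
  · simp [h]
  · simp [h]

theorem sg_eq (P : WP) : P.sg = P.m.S + 1 + P.m.κ * (P.m.K * P.m.D) := rfl

theorem cs_lt (P : WP) (hκ : 0 < P.m.κ) (d : ℕ) : P.cs d < 2 ^ P.sg := by
  unfold WP.cs ifz
  split_ifs
  · exact Nat.mod_lt _ (by positivity)
  · exact Pool.Agent.Helper56.MH.mk_lt P.m (capN_lt _ _)
      fun _ _ => Nat.pow_lt_pow_right (by norm_num) (by omega)

theorem wq_mod (P : WP) (u : ℕ) : P.m.wq (u % 2 ^ P.sg) = P.m.wq u := by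
  unfold Prm.wq
  exact Nat.mod_mod_of_dvd _ (pow_dvd_pow 2 (by rw [sg_eq]; omega))

/-- The code is determined by the state and the coordinates. -/
theorem code_eq (P : WP) {q : ℕ} (hq : q < 2 ^ P.sg) :
    q = P.m.wq q + 2 ^ (P.m.S + 1) * tab (2 ^ P.m.κ) (P.m.K * P.m.D) (P.m.cq q) := by
  have h1 : q / 2 ^ (P.m.S + 1) < (2 ^ P.m.κ) ^ (P.m.K * P.m.D) := by
    rw [← pow_mul]
    refine Nat.div_lt_of_lt_mul ?_
    rw [← pow_add, ← sg_eq]
    exact hq
  have h2 : tab (2 ^ P.m.κ) (P.m.K * P.m.D) (P.m.cq q) = q / 2 ^ (P.m.S + 1) :=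
    tab_dig _ _ h1
  rw [h2]
  unfold Prm.wq
  exact (Nat.mod_add_div _ _).symm

theorem code_ext (P : WP) {q q' : ℕ} (hq : q < 2 ^ P.sg) (hq' : q' < 2 ^ P.sg)
    (hw : P.m.wq q = P.m.wq q') (hc : ∀ k < P.m.K * P.m.D, P.m.cq q k = P.m.cq q' k) :
    q = q' := by
  rw [code_eq P hq, code_eq P hq', hw, tab_congr hc]

theorem good_ext (P : WP) {C : Conf D K} (hK : P.m.K = K) (hD : P.m.D = D) {q q' : ℕ}
    {M M' : ℕ → ℕ} (hq : q < 2 ^ P.sg) (hq' : q' < 2 ^ P.sg) (h : GoodM P.m C q M)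
    (h' : GoodM P.m C q' M') : q = q' := by
  refine code_ext P hq hq' (h.wq.trans h'.wq.symm) ?_
  intro k hk
  rw [hK, hD] at hk
  have hD0 : 0 < D := by
    rcases Nat.eq_zero_or_pos D with h0 | h0
    · rw [h0] at hk
      omega
    · exact h0
  have hi : k / D < K := Nat.div_lt_of_lt_mul (by rwa [Nat.mul_comm] at hk)
  have e : k / D * D + k % D = k := Nat.div_add_mod' k D
  have h1 := h.cq ⟨k / D, hi⟩ ⟨k % D, Nat.mod_lt _ hD0⟩
  have h2 := h'.cq ⟨k / D, hi⟩ ⟨k % D, Nat.mod_lt _ hD0⟩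
  simp only [e] at h1 h2
  exact_mod_cast h1.trans h2.symm

theorem toNat_lt {κ : ℕ} {z : Fin D → ℤ} (hz : InBox κ z) (k : Fin D) :
    (z k + 2 ^ (κ - 1)).toNat < 2 ^ κ := by
  have h1 := (hz k).1
  have h2 := (hz k).2
  rw [Int.toNat_lt h1]
  exact_mod_cast h2

theorem okz_ne {P : WP} {F : ℕ → ℕ → ℕ → ℕ} {c τ d i p : ℕ} :
    P.okz F c τ d i p ≠ 0 ↔ F c τ (P.rt p) % 2 ^ (P.sg + P.cb) = P.cs d ∧
      P.oz c τ (P.rt p) (F c τ (P.rt p)) (i + (P.m.K + 1) * p) =
        P.ini d (i + (P.m.K + 1) * p) := by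
  unfold WP.okz
  rw [mul_ne_zero_iff, e01_ne, e01_ne]

theorem chk_ne {P : WP} {F : ℕ → ℕ → ℕ → ℕ} {c τ d : ℕ} :
    P.chk F c τ d ≠ 0 ↔ 0 < τ ∧ 1 < d ∧ 0 < P.m.wq (P.cs d) ∧
      ∀ i < P.m.K, ∀ p < (2 ^ P.m.κ) ^ P.m.D, P.okz F c τ d i p ≠ 0 := by
  unfold WP.chk
  rw [mul_ne_zero_iff, mul_ne_zero_iff, mul_ne_zero_iff, l01_ne, l01_ne, l01_ne, e01_ne,
    Finset.sum_eq_zero_iff]
  refine and_congr_right fun _ => and_congr_right fun _ => and_congr_right fun _ => ?_
  constructor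
  · intro h i hi p hp
    have h1 := Finset.sum_eq_zero_iff.1 (h i (mem_range.2 hi)) p (mem_range.2 hp)
    omega
  · intro h i hi
    refine Finset.sum_eq_zero fun p hp => ?_
    have h1 := h i (mem_range.1 hi) p (mem_range.1 hp)
    omega

theorem chk (hR : RUN_stmt) (hV : VAL_stmt) : CHK_stmt where
  snd := by
    intro D K A eA eN eW c0 w y P F hK hP hF hc hFO c τ d t hτ hrep hchk
    obtain ⟨h1, h2, h3, h4⟩ := chk_ne.1 hchk
    have hPK := hP.h_K
    have hPD := hP.h_D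
    have hpow : 0 < (2 ^ P.m.κ) ^ P.m.D := by positivity
    have hu : ((P.sys c τ).conf P.N).1 = P.cs d := by
      have h5 := (okz_ne.1 (h4 0 (by rw [hPK]; exact hK) 0 hpow)).1
      rw [← h5]
      exact (hV.st P F hP.pos_κ hc hFO c τ _).symm
    rcases hR.snd A eA eN eW c0 w y P hP hF hc c τ t hrep hτ P.N with h6 | ⟨j, hj, -, hG, -⟩
    · rw [hu] at h6
      omega
    · have h7 : τ - j = 0 := by
        rw [← hG.cnt, hu]
        exact Nat.div_eq_of_lt (cs_lt P hP.pos_κ d)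
      have hjτ : j = τ := by omega
      subst hjτ
      refine ⟨⟨by omega, ?_⟩, h1⟩
      have hg := hG.good
      rw [hu, Nat.mod_eq_of_lt (cs_lt P hP.pos_κ d)] at hg
      refine ⟨hg.wq, hg.len, hg.cq, ?_⟩
      intro i z hz
      have h8 := hg.mem i z hz
      rw [← h8]
      set p := tab (2 ^ P.m.κ) D fun k =>
        if h : k < D then (z ⟨k, h⟩ + 2 ^ (P.m.κ - 1)).toNat else 0 with hp
      have hp1 : p < (2 ^ P.m.κ) ^ P.m.D := by
        rw [hPD]
        refine tab_lt fun k hk => ?_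
        rw [dif_pos hk]
        exact toNat_lt hz ⟨k, hk⟩
      have hi1 : (i : ℕ) < P.m.K := by
        rw [hPK]
        exact i.2
      have hz1 : cz P.m i z = i + (P.m.K + 1) * p := rfl
      have h9 := (okz_ne.1 (h4 i hi1 p hp1)).2
      rw [hV.oz P F hP.pos_κ hc hFO c j i hi1 p hp1] at h9
      rw [hz1]
      exact h9.symm
  acs := by
    intro D K A eA eN eW c0 w y P F hK hP hF hc hFO c τ t hτ hrep hac
    unfold WP.ac at hac
    have h1 := right_ne_zero_of_mul hac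
    rw [hV.wq P F hP.pos_κ hc hFO c τ 0] at h1
    rcases hR.snd A eA eN eW c0 w y P hP hF hc c τ t hrep hτ P.N with h6 | ⟨j, -, -, hG, -⟩
    · rw [h6] at h1
      exact absurd Helper11.Ram.accN_zero h1
    · refine ⟨t + j, ?_⟩
      rw [← wq_mod, hG.good.wq] at h1
      have h2 := accN_le (num (A.conf w y (t + j)).q)
      exact (accN_num _).1 (by omega)
  cmp := by
    intro D K A eA eN eW c0 w y P F hK hP hF hc hFO c τ d t hN hτ hrep h0 hd hrep' hfit hbox hna
    have hPK := hP.h_K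
    have hPD := hP.h_D
    have hG := hR.cmp A eA eN eW c0 w y P hP hF hc c τ t hrep hτ hfit hbox hna P.N
    rw [min_eq_right hN, Nat.sub_self] at hG
    have hu1 : ((P.sys c τ).conf P.N).1 < 2 ^ P.sg := by
      have h1 := hG.cnt
      rcases (Nat.div_eq_zero_iff).1 h1 with h2 | h2
      · exact absurd h2 (by positivity)
      · exact h2
    have hg := hG.good
    rw [Nat.mod_eq_of_lt hu1] at hg
    have hu : ((P.sys c τ).conf P.N).1 = P.cs d :=
      good_ext P hPK hPD hu1 (cs_lt P hP.pos_κ d) hg hrep'.good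
    rw [chk_ne]
    refine ⟨h0, by omega, ?_, ?_⟩
    · rw [hrep'.good.wq]
      exact num_pos _
    · intro i hi p hp
      rw [okz_ne]
      refine ⟨?_, ?_⟩
      · rw [hV.st P F hP.pos_κ hc hFO c τ _, hu]
      · rw [hV.oz P F hP.pos_κ hc hFO c τ i hi p hp]
        have hi' : i < K := by rwa [hPK] at hi
        have hκ := hP.pos_κ
        set z : Fin D → ℤ := fun k => (dig (2 ^ P.m.κ) p k : ℤ) - 2 ^ (P.m.κ - 1) with hz
        have hzbox : InBox P.m.κ z := by
          intro k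
          have h1 : dig (2 ^ P.m.κ) p k < 2 ^ P.m.κ := dig_lt (by positivity) _ _
          have h2 : z k + 2 ^ (P.m.κ - 1) = (dig (2 ^ P.m.κ) p k : ℤ) := by
            simp [hz]
          rw [h2]
          constructor
          · positivity
          · exact_mod_cast h1
        have hcz : cz P.m i z = i + (P.m.K + 1) * p := by
          unfold cz
          congr 2
          have h1 : tab (2 ^ P.m.κ) D (dig (2 ^ P.m.κ) p) = p := by
            apply tab_dig
            rwa [hPD] at hp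
          refine Eq.trans ?_ h1
          refine tab_congr fun k hk => ?_
          rw [dif_pos hk]
          have h2 : z ⟨k, hk⟩ + 2 ^ (P.m.κ - 1) = (dig (2 ^ P.m.κ) p k : ℤ) := by
            simp [hz]
          rw [h2, Int.toNat_natCast]
        have h3 := hg.mem ⟨i, hi'⟩ z hzbox
        have h4 := hrep'.good.mem ⟨i, hi'⟩ z hzbox
        simp only [hcz] at h3 h4
        rw [h3, h4]
  acc := by
    intro D K A eA eN eW c0 w y P F hK hP hF hc hFO c τ t hN hτ hrep hfit hbox hna hacc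
    have hG := hR.cmp A eA eN eW c0 w y P hP hF hc c τ t hrep hτ hfit hbox hna P.N
    rw [min_eq_right hN, Nat.sub_self] at hG
    unfold WP.ac
    refine mul_ne_zero ?_ ?_
    · rw [l01_ne]
      exact Nat.pos_of_ne_zero hrep.ne
    · rw [hV.wq P F hP.pos_κ hc hFO c τ 0, ← wq_mod, hG.good.wq, (accN_num _).2 hacc]
      exact one_ne_zero

end Pool.Agent.Helper5.MHS
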